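import Pool.Agent.Helper98.Lang.Defs
import Pool.Agent.Helper92.Ru.GoalsS
import Pool.Agent.Helper89.Lang.RothA
import Pool.Agent.Helper73.LF.Goals

/-!
# SCH: Schmidt's theorem (product form) from the subspace theorem (MP_c307ca_nt, theorem LF)
-/

set_option autoImplicit false

open NumberField Finset

namespace Pool.Agent.Helper98.LF

open Pool.Agent.Helper98.Lang Pool.Agent.Helper92.Ru Pool.Agent.Helper73.LF

/-- a number field containing conjugates of all the `x i` at every infinite place -/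
theorem exists_field' {m : ℕ} (x : Fin m → ℝ) (hx : ∀ i, IsAlgebraic ℚ (x i)) :
    ∃ (k : Type) (_ : Field k) (_ : NumberField k) (r : InfinitePlace k → Fin m → k),
      ∀ (v : InfinitePlace k) (i : Fin m), v.embedding (r v i) = (x i : ℂ) := by
  classical
  let f : Polynomial ℚ := ∏ i, minpoly ℚ (x i)
  have hint : ∀ i, IsIntegral ℚ (x i) := fun i => (hx i).isIntegral
  have hf0 : f ≠ 0 := Finset.prod_ne_zero_iff.2 fun i _ => minpoly.ne_zero (hint i)
  let _ : CharZero f.SplittingField := charZero_of_injective_algebraMap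
    (algebraMap ℚ f.SplittingField).injective
  let _ : NumberField f.SplittingField := { }
  have key : ∀ (v : InfinitePlace f.SplittingField) (i : Fin m), ∃ r : f.SplittingField,
      v.embedding r = (x i : ℂ) := by
    intro v i
    have hs : (f.map (algebraMap ℚ f.SplittingField)).Splits := Polynomial.SplittingField.splits f
    have h1 := Polynomial.Splits.roots_map hs v.embedding
    have h2 : (x i : ℂ) ∈ ((f.map (algebraMap ℚ f.SplittingField)).map v.embedding).roots := by
      have h6 : (f.map (algebraMap ℚ f.SplittingField)).map v.embedding ≠ 0 := by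
        rw [Polynomial.map_ne_zero_iff v.embedding.injective,
          Polynomial.map_ne_zero_iff (algebraMap ℚ f.SplittingField).injective]
        exact hf0
      rw [Polynomial.map_map] at h6 ⊢
      rw [Polynomial.mem_roots h6, Polynomial.IsRoot.def, Polynomial.eval_map]
      have h3 : v.embedding.comp (algebraMap ℚ f.SplittingField) =
          (Complex.ofRealHom : ℝ →+* ℂ).comp (algebraMap ℚ ℝ) := Subsingleton.elim _ _
      rw [h3]
      have h4 : (x i : ℂ) = Complex.ofRealHom (x i) := rfl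
      have h5 : f.eval₂ (algebraMap ℚ ℝ) (x i) = 0 := by
        have h7 : (minpoly ℚ (x i)).eval₂ (algebraMap ℚ ℝ) (x i) = 0 := minpoly.aeval ℚ (x i)
        change (∏ i, minpoly ℚ (x i)).eval₂ (algebraMap ℚ ℝ) (x i) = 0
        rw [Polynomial.eval₂_finsetProd]
        exact Finset.prod_eq_zero (Finset.mem_univ i) h7
      rw [h4, ← Polynomial.hom_eval₂, h5, map_zero]
    rw [h1, Multiset.mem_map] at h2
    obtain ⟨r, _, hr⟩ := h2
    exact ⟨r, hr⟩
  choose r hr using key
  exact ⟨f.SplittingField, inferInstance, inferInstance, r, hr⟩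

/-- the vector of numerators -/
noncomputable def vec {m : ℕ} (x : Fin m → ℝ) (n : ℕ) : Fin (m + 1) → ℤ :=
  Fin.cons (n : ℤ) (fun i => round ((n : ℝ) * x i))

/-- the matrix of the forms -/
def mat {k : Type} [Field k] {m : ℕ} (r : Fin m → k) : Matrix (Fin (m + 1)) (Fin (m + 1)) k :=
  fun i j => Fin.cases (if j = 0 then 1 else 0)
    (fun i' => Fin.cases (r i') (fun j' => if i' = j' then -1 else 0) j) i

theorem mat_det {k : Type} [Field k] {m : ℕ} (r : Fin m → k) : (mat r).det ≠ 0 := by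
  have h1 : (mat r).BlockTriangular OrderDual.toDual := by
    intro i j hij
    have hij' : i < j := hij
    have hj0 : j ≠ 0 := fun h => absurd hij' (by rw [h]; exact Fin.not_lt_zero i)
    obtain ⟨j', rfl⟩ := Fin.exists_succ_eq.2 hj0
    revert hij'
    refine Fin.cases ?_ (fun i' => ?_) i
    · intro _
      simp [mat]
    · intro hij'
      have hne : i' ≠ j' := fun h => by
        rw [h] at hij'
        exact lt_irrefl _ hij'
      simp [mat, hne]
  rw [Matrix.det_of_isLowerTriangular _ h1]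
  refine Finset.prod_ne_zero_iff.2 fun i _ => ?_
  refine Fin.cases ?_ (fun i' => ?_) i
  · simp [mat]
  · simp [mat]

theorem mat_mulVec_zero {k : Type} [Field k] {m : ℕ} (r : Fin m → k) (z : Fin (m + 1) → k) :
    (mat r).mulVec z 0 = z 0 := by
  simp [mat, Matrix.mulVec, dotProduct]

theorem mat_mulVec_succ {k : Type} [Field k] {m : ℕ} (r : Fin m → k) (z : Fin (m + 1) → k)
    (i : Fin m) : (mat r).mulVec z i.succ = r i * z 0 - z i.succ := by
  simp [mat, Matrix.mulVec, dotProduct, Fin.sum_univ_succ]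
  ring

/-- the good approximations with given exponents lie in finitely many subspaces -/
theorem bad_mem' (h : SSTX) {m : ℕ} {x : Fin m → ℝ} {k : Type} [Field k] [NumberField k]
    (r : InfinitePlace k → Fin m → k)
    (hr : ∀ (v : InfinitePlace k) (i : Fin m), v.embedding (r v i) = (x i : ℂ))
    (a : Fin m → ℝ) (ha : 1 < ∑ i, a i) :
    ∃ (N0 : ℝ) (F : Finset (Submodule k (Fin (m + 1) → k))), (∀ W ∈ F, W ≠ ⊤) ∧
      ∀ n : ℕ, 1 ≤ n → N0 ≤ n → (∀ i, nd (n * x i) ≤ (n : ℝ) ^ (-a i)) →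
        ∃ W ∈ F, (fun j => ((vec x n j : ℤ) : k)) ∈ W := by
  classical
  let T : Finset (FinitePlace k) := ∅
  let rr : SP k T → Fin m → k := Sum.elim r (fun _ _ => 0)
  let mu : SP k T → ℕ := Sum.elim (fun v => v.mult) (fun _ => 1)
  let D : ℕ := ∑ v, mu v
  have hm : ∀ v, 1 ≤ mu v := by
    rintro (v | v)
    · exact v.mult_pos
    · exact le_refl 1
  have hD : 1 ≤ D := by
    obtain ⟨v⟩ : Nonempty (InfinitePlace k) := inferInstance
    calc 1 ≤ mu (Sum.inl v) := hm _
      _ ≤ D := Finset.single_le_sum (f := mu) (fun _ _ => Nat.zero_le _) (Finset.mem_univ _)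
  have hD0 : (D : ℝ) ≠ 0 := by positivity
  let A : SP k T → Matrix (Fin (m + 1)) (Fin (m + 1)) k := fun v => mat (rr v)
  have hA : ∀ v, (A v).det ≠ 0 := fun v => mat_det _
  let c : SP k T → Fin (m + 1) → ℝ := fun v j =>
    Fin.cases (0 : ℝ) (fun i => (1 + a i) * mu v / D) j
  have hc0 : ∀ v, c v 0 = 0 := fun v => rfl
  have hcs : ∀ v (i : Fin m), c v i.succ = (1 + a i) * mu v / D := fun v i => rfl
  have hc : ((m + 1 : ℕ) : ℝ) < ∑ v, ∑ i, c v i := by
    have h1 : ∑ v, ∑ i, c v i = m + ∑ i, a i := by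
      have h2 : ∀ v, ∑ i, c v i = ((m : ℝ) + ∑ i, a i) / D * mu v := by
        intro v
        rw [Fin.sum_univ_succ, hc0, zero_add]
        simp only [hcs]
        rw [← Finset.sum_div, ← Finset.sum_mul, Finset.sum_add_distrib, Finset.sum_const,
          Finset.card_univ, Fintype.card_fin, nsmul_eq_mul, mul_one]
        ring
      rw [Finset.sum_congr rfl (fun v _ => h2 v), ← Finset.mul_sum, ← Nat.cast_sum]
      change ((m : ℝ) + ∑ i, a i) / D * (D : ℝ) = m + ∑ i, a i
      field_simp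
    rw [h1]
    push_cast
    linarith
  obtain ⟨H0, F, hF, hS⟩ := h k T (m + 1) (by omega) A hA c hc 1 one_pos
  refine ⟨H0, F, hF, fun n hn hnN hnd => ?_⟩
  have hn1 : (1 : ℝ) ≤ n := by exact_mod_cast hn
  have hn0 : (0 : ℝ) < n := by linarith
  refine hS (fun j => ((vec x n j : ℤ) : k)) (fun v => (n : ℝ) ^ mu v)
    (fun _ => 0) ((n : ℝ) ^ D) (fun v => by positivity) (by simp) (fun _ _ => rfl) ?_ ?_ ?_ ?_
  · intro w _ i
    rw [zpow_zero]
    exact Helper89Roth.int_le_one w _
  · simp only [zpow_zero, finprod_one, mul_one]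
    rw [Finset.prod_pow_eq_pow_sum]
  · calc H0 ≤ n := hnN
      _ = (n : ℝ) ^ 1 := (pow_one _).symm
      _ ≤ (n : ℝ) ^ D := pow_le_pow_right₀ hn1 hD
  · rintro (v | v) j
    · have hmv : mu (Sum.inl v) = v.mult := rfl
      have habs : ∀ x : k, v x = ‖v.embedding x‖ := fun x =>
        (InfinitePlace.norm_embedding_eq v x).symm
      refine Fin.cases ?_ (fun i => ?_) j
      · have h1 : (A (Sum.inl v)).mulVec (fun j => ((vec x n j : ℤ) : k)) 0 = ((n : ℤ) : k) := by
          change (mat (rr (Sum.inl v))).mulVec _ 0 = _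
          rw [mat_mulVec_zero]
          simp [vec]
        have h2 : v ((n : ℤ) : k) = n := by
          rw [habs, map_intCast]
          simp
        rw [h1, nS_inl, h2, hmv, hc0]
        simp
      · have h1 : (A (Sum.inl v)).mulVec (fun j => ((vec x n j : ℤ) : k)) i.succ =
            r v i * ((n : ℤ) : k) - ((round ((n : ℝ) * x i) : ℤ) : k) := by
          change (mat (rr (Sum.inl v))).mulVec _ i.succ = _
          rw [mat_mulVec_succ]
          simp [vec, rr]
        have h2 : v (r v i * ((n : ℤ) : k) - ((round ((n : ℝ) * x i) : ℤ) : k)) =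
            nd (n * x i) := by
          rw [habs, map_sub, map_mul, hr, map_intCast, map_intCast, nd]
          have : (x i : ℂ) * ((n : ℤ) : ℂ) - ((round ((n : ℝ) * x i) : ℤ) : ℂ) =
              (((n : ℝ) * x i - (round ((n : ℝ) * x i) : ℤ) : ℝ) : ℂ) := by
            push_cast; ring
          rw [this, Complex.norm_real, Real.norm_eq_abs]
        rw [h1, nS_inl, h2, hmv, hcs, hmv]
        have h4 : ((n : ℝ) ^ D) ^ (-((1 + a i) * v.mult / D)) =
            (n : ℝ) ^ (-((1 + a i) * v.mult)) := by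
          rw [← Real.rpow_natCast, ← Real.rpow_mul hn0.le]
          congr 1
          field_simp
        rw [h4, one_mul, ← Real.rpow_natCast (n : ℝ) v.mult, ← Real.rpow_add hn0]
        calc nd (n * x i) ^ v.mult ≤ ((n : ℝ) ^ (-a i)) ^ v.mult :=
              pow_le_pow_left₀ (abs_nonneg _) (hnd i) _
          _ = (n : ℝ) ^ ((v.mult : ℝ) + -((1 + a i) * v.mult)) := by
              rw [← Real.rpow_natCast, ← Real.rpow_mul hn0.le]
              congr 1
              ring
    · exact (Finset.notMem_empty _ v.2).elim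

/-- an integral relation from a proper subspace -/
theorem relation {k : Type} [Field k] [NumberField k] {M : ℕ} {W : Submodule k (Fin M → k)}
    (hW : W ≠ ⊤) :
    ∃ u : Fin M → ℤ, u ≠ 0 ∧ ∀ z : Fin M → ℤ, (fun j => ((z j : ℤ) : k)) ∈ W →
      ∑ j, u j * z j = 0 := by
  classical
  obtain ⟨f, hf0, hf⟩ := Submodule.exists_le_ker_of_lt_top W (lt_top_iff_ne_top.2 hW)
  let w : Fin M → k := fun j => f (Pi.single j 1)
  have hfz : ∀ z : Fin M → k, f z = ∑ j, z j * w j := by
    intro z
    conv_lhs => rw [pi_eq_sum_univ' z]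
    rw [map_sum]
    refine Finset.sum_congr rfl fun j _ => ?_
    rw [map_smul, smul_eq_mul]
  have hw : ∃ j, w j ≠ 0 := by
    by_contra hcon
    push Not at hcon
    apply hf0
    refine LinearMap.ext fun z => ?_
    rw [hfz, LinearMap.zero_apply]
    exact Finset.sum_eq_zero fun j _ => by rw [hcon j, mul_zero]
  obtain ⟨j0, hj0⟩ := hw
  let b := Module.finBasis ℚ k
  obtain ⟨l, hl⟩ : ∃ l, b.repr (w j0) l ≠ 0 := by
    by_contra hcon
    push Not at hcon
    apply hj0
    have : b.repr (w j0) = 0 := by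
      ext l
      exact hcon l
    exact (LinearEquiv.map_eq_zero_iff _).1 this
  let g : Fin M → ℚ := fun j => b.repr (w j) l
  let u : Fin M → ℤ := fun j => (g j).num * ∏ i ∈ univ.erase j, ((g i).den : ℤ)
  have hu : ∀ j, ((u j : ℤ) : ℚ) = g j * ∏ i, ((g i).den : ℚ) := by
    intro j
    rw [← Finset.mul_prod_erase univ (fun i => ((g i).den : ℚ)) (Finset.mem_univ j)]
    simp only [u]
    push_cast
    rw [← mul_assoc, Rat.mul_den_eq_num]
  refine ⟨u, fun h0 => ?_, fun z hz => ?_⟩
  · have h1 := hu j0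
    rw [h0] at h1
    have h2 : ∏ i, ((g i).den : ℚ) ≠ 0 :=
      Finset.prod_ne_zero_iff.2 fun i _ => by exact_mod_cast (g i).den_nz
    have h3 : g j0 = 0 := by
      rcases mul_eq_zero.1 h1.symm with h | h
      · exact h
      · exact absurd h h2
    exact hl h3
  · have h1 : ∑ j, ((z j : ℤ) : k) * w j = 0 := by
      rw [← hfz]
      exact hf hz
    have h2 : ∑ j, (z j : ℚ) * g j = 0 := by
      have h3 : b.repr (∑ j, ((z j : ℤ) : k) * w j) l = 0 := by rw [h1]; simp
      rw [map_sum, Finsupp.finsetSum_apply] at h3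
      rw [← h3]
      refine Finset.sum_congr rfl fun j _ => ?_
      have h4 : ((z j : ℤ) : k) * w j = (z j : ℚ) • w j := by
        rw [Algebra.smul_def]
        simp
      rw [h4, map_smul]
      simp [g]
    have h3 : ((∑ j, u j * z j : ℤ) : ℚ) = 0 := by
      push_cast
      have h4 : ∀ j, ((u j : ℤ) : ℚ) * (z j : ℚ) = ((z j : ℚ) * g j) * ∏ i, ((g i).den : ℚ) := by
        intro j
        rw [hu]; ring
      rw [Finset.sum_congr rfl fun j _ => h4 j, ← Finset.sum_mul, h2, zero_mul]
    exact_mod_cast h3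

theorem finite_exp (h : SSTX) {m : ℕ} {x : Fin m → ℝ} (hx : ∀ i, IsAlgebraic ℚ (x i))
    (hind : Indep x) (a : Fin m → ℝ) (ha : 1 < ∑ i, a i) :
    Set.Finite {n : ℕ | 1 ≤ n ∧ ∀ i, nd (n * x i) ≤ (n : ℝ) ^ (-a i)} := by
  obtain ⟨k, _, _, r, hr⟩ := exists_field' x hx
  obtain ⟨N0, F, hF, hN⟩ := bad_mem' h r hr a ha
  have hsub : {n : ℕ | 1 ≤ n ∧ ∀ i, nd (n * x i) ≤ (n : ℝ) ^ (-a i)} ⊆
      {n : ℕ | (n : ℝ) < N0} ∪ ⋃ W ∈ F, {n : ℕ | (fun j => ((vec x n j : ℤ) : k)) ∈ W} := by
    intro n hn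
    by_cases hlt : (n : ℝ) < N0
    · exact Or.inl hlt
    · right
      obtain ⟨W, hW, hmem⟩ := hN n hn.1 (not_lt.1 hlt) hn.2
      exact Set.mem_biUnion hW hmem
  refine Set.Finite.subset (Set.Finite.union ?_ ?_) hsub
  · refine (Set.finite_Iic ⌈N0⌉₊).subset fun n hn => ?_
    have h1 : (n : ℝ) < N0 := hn
    have h2 : (n : ℝ) ≤ ⌈N0⌉₊ := h1.le.trans (Nat.le_ceil _)
    exact_mod_cast h2
  · refine Set.Finite.biUnion F.finite_toSet fun W hW => ?_
    obtain ⟨u, hu, hrel⟩ := relation (hF W hW)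
    set κ : ℝ := (u 0 : ℝ) + ∑ i : Fin m, (u i.succ : ℝ) * x i with hκ
    have hκ0 : κ ≠ 0 := by
      intro h0
      obtain ⟨h1, h2⟩ := hind (u 0) (fun i => u i.succ) h0
      apply hu
      funext j
      refine Fin.cases h1 (fun i => ?_) j
      exact congrFun h2 i
    have hκp : 0 < |κ| := abs_pos.2 hκ0
    set B : ℝ := ∑ i : Fin m, |(u i.succ : ℝ)| with hB
    refine (Set.finite_Iic ⌈B / |κ|⌉₊).subset fun n hn => ?_
    have h1 := hrel (vec x n) hn
    rw [Fin.sum_univ_succ] at h1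
    simp only [vec, Fin.cons_zero, Fin.cons_succ] at h1
    have h2 : (u 0 : ℝ) * n + ∑ i : Fin m, (u i.succ : ℝ) * (round ((n : ℝ) * x i) : ℤ) = 0 := by
      exact_mod_cast h1
    have h3 : (n : ℝ) * κ = ∑ i : Fin m, (u i.succ : ℝ) *
        ((n : ℝ) * x i - (round ((n : ℝ) * x i) : ℤ)) := by
      have h4 : ∑ i : Fin m, (u i.succ : ℝ) * ((n : ℝ) * x i - (round ((n : ℝ) * x i) : ℤ)) =
          (n : ℝ) * ∑ i : Fin m, (u i.succ : ℝ) * x i
            - ∑ i : Fin m, (u i.succ : ℝ) * (round ((n : ℝ) * x i) : ℤ) := by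
        rw [Finset.mul_sum, ← Finset.sum_sub_distrib]
        refine Finset.sum_congr rfl fun i _ => by ring
      rw [h4, hκ]
      linarith
    have h5 : (n : ℝ) * |κ| ≤ B := by
      rw [← abs_of_nonneg (Nat.cast_nonneg n : (0 : ℝ) ≤ n), ← abs_mul, h3]
      refine (Finset.abs_sum_le_sum_abs _ _).trans (Finset.sum_le_sum fun i _ => ?_)
      rw [abs_mul]
      have h6 := abs_sub_round ((n : ℝ) * x i)
      have h7 := abs_nonneg (u i.succ : ℝ)
      nlinarith
    have h6 : (n : ℝ) ≤ B / |κ| := by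
      rw [le_div_iff₀ hκp]; exact h5
    have h7 : (n : ℝ) ≤ ⌈B / |κ|⌉₊ := h6.trans (Nat.le_ceil _)
    exact_mod_cast h7

theorem nd_pos' {m : ℕ} {x : Fin m → ℝ} (hind : Indep x) {n : ℕ} (hn : 1 ≤ n) (i : Fin m) :
    0 < nd (n * x i) := by
  classical
  rw [nd, abs_pos]
  intro h0
  obtain ⟨h1, h2⟩ := hind (-(round ((n : ℝ) * x i))) (fun j => if j = i then (n : ℤ) else 0) (by
    have h3 : ∑ j : Fin m, (((if j = i then (n : ℤ) else 0 : ℤ)) : ℝ) * x j = (n : ℝ) * x i := by
      rw [Finset.sum_eq_single i]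
      · simp
      · intro j _ hj
        simp [hj]
      · intro hi
        exact absurd (Finset.mem_univ i) hi
    rw [h3]
    push_cast
    linarith)
  have h3 := congrFun h2 i
  simp at h3
  omega

theorem sch (h : SSTX) : GSch := by
  intro m x hx hind δ hδ
  classical
  -- the step of the grid
  obtain ⟨J, hJ⟩ := exists_nat_gt ((1 + δ) * m / δ)
  have hJ0 : (0 : ℝ) < J := lt_of_le_of_lt (by positivity) hJ
  set s : ℝ := (1 + δ) / J with hs
  have hs0 : 0 < s := by positivity
  have hsm : s * m < δ := by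
    rw [hs, div_mul_eq_mul_div, div_lt_iff₀ hJ0]
    rw [div_lt_iff₀ hδ] at hJ
    linarith
  have hsJ : s * J = 1 + δ := by
    rw [hs]; field_simp
  let G : Finset (Fin m → ℕ) := (Fintype.piFinset fun _ : Fin m => range (J + 1)).filter
    (fun j => 1 < ∑ i, s * (j i : ℝ))
  let S : Set ℕ := {n | 1 ≤ n ∧ ∏ i, nd (n * x i) ≤ (n : ℝ) ^ (-(1 + δ))}
  have hfin : S.Finite := by
    have hsub : S ⊆ {n : ℕ | n ≤ 1} ∪
        ⋃ j ∈ G, {n : ℕ | 1 ≤ n ∧ ∀ i, nd (n * x i) ≤ (n : ℝ) ^ (-(s * (j i : ℝ)))} := by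
      intro n hn
      rcases Nat.lt_or_ge 1 n with h1n | h1n
      swap
      · exact Or.inl h1n
      right
      have hn1 : (1 : ℝ) < n := by exact_mod_cast h1n
      have hn0 : (0 : ℝ) < n := by linarith
      let P : Fin m → ℕ → Prop := fun i j => nd (n * x i) ≤ (n : ℝ) ^ (-(s * (j : ℝ)))
      have hP0 : ∀ i, P i 0 := by
        intro i
        have h2 := abs_sub_round ((n : ℝ) * x i)
        change nd (n * x i) ≤ (n : ℝ) ^ (-(s * ((0 : ℕ) : ℝ)))
        rw [Nat.cast_zero, mul_zero, neg_zero, Real.rpow_zero, nd]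
        linarith
      let j : Fin m → ℕ := fun i => Nat.findGreatest (P i) J
      have hjP : ∀ i, P i (j i) := fun i =>
        Nat.findGreatest_spec (P := P i) (Nat.zero_le J) (hP0 i)
      have hjJ : ∀ i, j i ≤ J := fun i => Nat.findGreatest_le J
      have hjG : j ∈ G := by
        refine Finset.mem_filter.2 ⟨Fintype.mem_piFinset.2 fun i =>
          Finset.mem_range.2 (Nat.lt_succ_of_le (hjJ i)), ?_⟩
        by_cases hall : ∀ i, j i < J
        · have h2 : ∀ i, (n : ℝ) ^ (-(s * ((j i : ℝ) + 1))) ≤ nd (n * x i) := by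
            intro i
            have h3 : ¬ P i (j i + 1) :=
              Nat.findGreatest_is_greatest (P := P i) (Nat.lt_succ_self _) (hall i)
            have h4 := (not_le.1 h3).le
            push_cast at h4
            exact h4
          have h3 : ∏ i, (n : ℝ) ^ (-(s * ((j i : ℝ) + 1))) ≤ (n : ℝ) ^ (-(1 + δ)) :=
            (Finset.prod_le_prod (fun i _ => (Real.rpow_pos_of_pos hn0 _).le)
              (fun i _ => h2 i)).trans hn.2
          rw [← Real.rpow_sum_of_pos hn0] at h3
          rw [Real.rpow_le_rpow_left_iff hn1] at h3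
          have h4 : ∑ i, -(s * ((j i : ℝ) + 1)) = -(∑ i, s * (j i : ℝ)) - s * m := by
            rw [← Finset.sum_neg_distrib]
            have h5 : s * (m : ℝ) = ∑ _i : Fin m, s := by
              rw [Finset.sum_const, Finset.card_univ, Fintype.card_fin, nsmul_eq_mul, mul_comm]
            rw [h5, ← Finset.sum_sub_distrib]
            refine Finset.sum_congr rfl fun i _ => by ring
          rw [h4] at h3
          linarith
        · push Not at hall
          obtain ⟨i, hi⟩ := hall
          have h2 : j i = J := le_antisymm (hjJ i) hi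
          have h3 : s * (j i : ℝ) ≤ ∑ i, s * (j i : ℝ) :=
            Finset.single_le_sum (f := fun i => s * (j i : ℝ))
              (fun i _ => by positivity) (Finset.mem_univ i)
          rw [h2, hsJ] at h3
          linarith
      exact Set.mem_biUnion hjG ⟨by omega, hjP⟩
    refine Set.Finite.subset (Set.Finite.union (Set.finite_Iic 1) ?_) hsub
    refine Set.Finite.biUnion G.finite_toSet fun j hj => ?_
    exact finite_exp h hx hind (fun i => s * (j i : ℝ)) (Finset.mem_filter.1 hj).2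
  have hpos : ∀ n : ℕ, 1 ≤ n → 0 < ∏ i, nd (n * x i) := fun n hn =>
    Finset.prod_pos fun i _ => nd_pos' hind hn i
  have hex : ∃ c : ℝ, 0 < c ∧ c ≤ 1 ∧ ∀ n ∈ S, c ≤ ∏ i, nd (n * x i) := by
    have key : ∀ s : Finset ℕ, (∀ n ∈ s, 1 ≤ n) →
        ∃ c : ℝ, 0 < c ∧ c ≤ 1 ∧ ∀ n ∈ s, c ≤ ∏ i, nd (n * x i) := by
      intro s
      induction s using Finset.induction_on with
      | empty => intro _; exact ⟨1, one_pos, le_refl _, by simp⟩
      | insert a s ha ih =>
        intro hs
        obtain ⟨c, hc, hc1, hcs⟩ := ih (fun n hn => hs n (Finset.mem_insert_of_mem hn))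
        have ha1 := hpos a (hs a (Finset.mem_insert_self _ _))
        refine ⟨min c (∏ i, nd (a * x i)), lt_min hc ha1, (min_le_left _ _).trans hc1, ?_⟩
        intro n hn
        rcases Finset.mem_insert.1 hn with rfl | hn
        · exact min_le_right _ _
        · exact (min_le_left _ _).trans (hcs n hn)
    obtain ⟨c, hc, hc1, hcs⟩ := key hfin.toFinset (fun n hn => ((hfin.mem_toFinset).1 hn).1)
    exact ⟨c, hc, hc1, fun n hn => hcs n ((hfin.mem_toFinset).2 hn)⟩
  obtain ⟨c, hc, hc1, hcs⟩ := hex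
  refine ⟨c, hc, fun n hn => ?_⟩
  have hn1 : (1 : ℝ) ≤ n := by exact_mod_cast hn
  have hle : (n : ℝ) ^ (-(1 + δ)) ≤ 1 :=
    Real.rpow_le_one_of_one_le_of_nonpos hn1 (by linarith)
  have hpos' : 0 < (n : ℝ) ^ (-(1 + δ)) := Real.rpow_pos_of_pos (by linarith) _
  by_cases hS : ∏ i, nd (n * x i) ≤ (n : ℝ) ^ (-(1 + δ))
  · calc c * (n : ℝ) ^ (-(1 + δ)) ≤ c * 1 := mul_le_mul_of_nonneg_left hle hc.le
      _ = c := mul_one _
      _ ≤ _ := hcs n ⟨hn, hS⟩
  · calc c * (n : ℝ) ^ (-(1 + δ)) ≤ 1 * (n : ℝ) ^ (-(1 + δ)) :=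
        mul_le_mul_of_nonneg_right hc1 hpos'.le
      _ ≤ _ := by rw [one_mul]; exact (not_le.1 hS).le

end Pool.Agent.Helper98.LF
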