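import Pool.Agent.Helper98.LF.SCH
import Pool.Agent.Helper92.Ru.AsmC
import Pool.Agent.Helper54.Ru.M1int

/-!
# Schmidt's theorem, unconditional (MP_c307ca_nt, theorem LF)
-/

namespace Pool.Agent.Helper98.LF

/-- **LF-SCH** -/
theorem schmidt : Pool.Agent.Helper73.LF.GSch :=
  sch (Pool.Agent.Helper92.Ru.sstX' Pool.Agent.Helper54.Ru.m1int Pool.Agent.Helper92.Ru.vanish')

end Pool.Agent.Helper98.LF
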